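import Pool.Agent.Y782.FF.Stm

/-!
# Bound for patterns
-/

set_option autoImplicit false

namespace Pool.Agent.Y693.FF

open Finset Pool.Agent.TH285.Ff Pool.Agent.Y782.FF

lemma stars_succ {n : ℕ} (z : Fin (n + 1) → Option Bool) :
    stars z = stars (Fin.init z) + (if z (Fin.last n) = none then 1 else 0) := by
  classical
  unfold stars
  rw [Finset.card_filter, Finset.card_filter, Fin.sum_univ_castSucc]
  rfl

lemma stars_le {n : ℕ} (z : Fin n → Option Bool) : stars z ≤ n := by
  classical
  unfold stars
  calc _ ≤ (Finset.univ : Finset (Fin n)).card := Finset.card_filter_le _ _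
    _ = n := by simp

lemma agrees_snoc {n : ℕ} (z : Fin (n + 1) → Option Bool) (w : Fin n → Bool) (c : Bool) :
    agrees z (Fin.snoc w c : Fin (n + 1) → Bool) ↔
      agrees (Fin.init z) w ∧ ∀ b, z (Fin.last n) = some b → c = b := by
  constructor
  · intro h
    refine ⟨fun k b hk => ?_, fun b hb => ?_⟩
    · have := h k.castSucc b hk
      rwa [Fin.snoc_castSucc] at this
    · have := h (Fin.last n) b hb
      rwa [Fin.snoc_last] at this
  · rintro ⟨h1, h2⟩ k
    refine Fin.lastCases ?_ (fun i => ?_) k
    · intro b hb
      rw [Fin.snoc_last]
      exact h2 b hb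
    · intro b hb
      rw [Fin.snoc_castSucc]
      exact h1 i b hb

open Classical in
lemma marg_succ {n : ℕ} (Q : (Fin (n + 1) → Bool) → ℝ) (z : Fin (n + 1) → Option Bool) :
    marg Q z = ∑ w : Fin n → Bool, ∑ c : Bool,
      if agrees (Fin.init z) w ∧ ∀ b, z (Fin.last n) = some b → c = b then
        Q (Fin.snoc w c) else 0 := by
  unfold marg
  rw [← (Fin.snocEquiv (fun _ : Fin (n + 1) => Bool)).sum_comp, Fintype.sum_prod_type,
    Finset.sum_comm]
  refine Finset.sum_congr rfl (fun w _ => Finset.sum_congr rfl (fun c _ => ?_))
  have h := agrees_snoc z w c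
  by_cases h1 : agrees z (Fin.snoc w c : Fin (n + 1) → Bool)
  · rw [if_pos (h.mp h1)]
    exact if_pos h1
  · rw [if_neg (fun h2 => h1 (h.mpr h2))]
    exact if_neg h1

theorem pat : S_PAT := by
  classical
  intro p hp0 hp1 hadd h h0 h1 hlow n
  induction n with
  | zero =>
    intro z
    have hs : stars z = 0 := Nat.le_zero.mp (stars_le z)
    rw [hs]
    simp only [Nat.sub_zero, pow_zero]
    unfold marg
    calc _ ≤ ∑ w : Fin 0 → Bool, p 0 w := by
          refine Finset.sum_le_sum (fun w _ => ?_)
          split_ifs
          · exact le_refl _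
          · exact hp0 0 w
      _ ≤ 1 := by
          rw [Fintype.sum_unique]
          exact hp1 0 _
  | succ n ih =>
    intro z
    rw [marg_succ, stars_succ]
    have ihz := ih (Fin.init z)
    have hsn := stars_le (Fin.init z)
    rcases hz : z (Fin.last n) with _ | b
    · have e1 : ∀ w : Fin n → Bool, (∑ c : Bool,
          if agrees (Fin.init z) w ∧ ∀ b, (none : Option Bool) = some b → c = b then
            p (n + 1) (Fin.snoc w c) else 0) = if agrees (Fin.init z) w then p n w else 0 := by
        intro w
        by_cases hw : agrees (Fin.init z) w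
        · rw [if_pos hw, hadd n w, Fintype.sum_bool, if_pos, if_pos]
          · exact ⟨hw, fun b hb => by cases hb⟩
          · exact ⟨hw, fun b hb => by cases hb⟩
        · rw [if_neg hw]
          exact Finset.sum_eq_zero (fun c _ => if_neg (fun h => hw h.1))
      rw [Finset.sum_congr rfl (fun w _ => e1 w), if_pos rfl]
      have e2 : n + 1 - (stars (Fin.init z) + 1) = n - stars (Fin.init z) := by omega
      rw [e2]
      exact ihz
    · have e1 : ∀ w : Fin n → Bool, (∑ c : Bool,
          if agrees (Fin.init z) w ∧ ∀ b', some b = some b' → c = b' then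
            p (n + 1) (Fin.snoc w c) else 0) ≤
            (1 - h) * (if agrees (Fin.init z) w then p n w else 0) := by
        intro w
        by_cases hw : agrees (Fin.init z) w
        · rw [if_pos hw, Finset.sum_eq_single b]
          · rw [if_pos ⟨hw, fun b' hb' => Option.some.inj hb'⟩]
            have h2 := hadd n w
            have h3 := hlow n (Fin.snoc w (!b))
            rw [Fin.init_snoc] at h3
            cases b
            · simp only [Bool.not_false] at h3
              linarith
            · simp only [Bool.not_true] at h3
              linarith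
          · intro c _ hc
            exact if_neg (fun h => hc (h.2 b rfl))
          · intro hb
            exact absurd (Finset.mem_univ b) hb
        · rw [if_neg hw, mul_zero]
          exact le_of_eq (Finset.sum_eq_zero (fun c _ => if_neg (fun h => hw h.1)))
      have hne : ¬ (some b = (none : Option Bool)) := fun h => by cases h
      rw [if_neg hne, add_zero]
      have e2 : n + 1 - stars (Fin.init z) = (n - stars (Fin.init z)) + 1 := by omega
      calc _ ≤ ∑ w : Fin n → Bool, (1 - h) * (if agrees (Fin.init z) w then p n w else 0) :=
            Finset.sum_le_sum (fun w _ => e1 w)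
        _ = (1 - h) * marg (p n) (Fin.init z) := by
            rw [← Finset.mul_sum]
            rfl
        _ ≤ (1 - h) * (1 - h) ^ (n - stars (Fin.init z)) :=
            mul_le_mul_of_nonneg_left ihz (by linarith)
        _ = (1 - h) ^ (n + 1 - stars (Fin.init z)) := by
            rw [e2, pow_succ, mul_comm]

end Pool.Agent.Y693.FF
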